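import Pool.Agent.K7.H61.TS.Final

set_option autoImplicit false

/-! # Turán stability for saturated graphs with linear deficit

For every `r ≥ 2`, all large `n` and all `m` with `n / r ≤ m ≤ n`, the largest number of vertices one
has to delete from an `(r + 1)`-saturated graph with `n` vertices and at least `t_r(n) - m` edges to
make it complete `r`-partite is, up to constant factors depending only on `r`,
`1 + ∑_{j = 2}^{r} (m - (j - 1) n / r)_+ ^ ((j - 1) / j)`. Equivalently, it has order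
`n ^ ((j - 2) / (j - 1)) + (m - (j - 1) n / r) ^ ((j - 1) / j)` for `(j - 1) n / r ≤ m ≤ j n / r`
and `2 ≤ j ≤ r`. -/

namespace Pool.Agent.Results.MP_506aae_co.LinearDeficit

open Finset

/-- `G` is `(r + 1)`-saturated: it has no clique with `r + 1` vertices, and joining any two
non-adjacent vertices creates one. -/
def IsSaturated {V : Type} (r : ℕ) (G : SimpleGraph V) : Prop :=
  G.CliqueFree (r + 1) ∧
    ∀ x y, x ≠ y → ¬ G.Adj x y → ¬ (G ⊔ SimpleGraph.edge x y).CliqueFree (r + 1)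

/-- Deleting the vertices of `D` leaves a complete `r`-partite graph; the parts are the sets
`{x ∉ D | c x = i}`, which may be empty. -/
def LeavesComplete {V : Type} (r : ℕ) (G : SimpleGraph V) (D : Finset V) : Prop :=
  ∃ c : V → Fin r, ∀ x ∉ D, ∀ y ∉ D, (G.Adj x y ↔ c x ≠ c y)

/-- The number of edges. -/
noncomputable def e {V : Type} (G : SimpleGraph V) : ℕ := G.edgeSet.ncard

/-- The number of edges of the Turán graph `T_r(n)`. -/
noncomputable def t (r n : ℕ) : ℕ := e (SimpleGraph.turanGraph n r)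

/-- `g_r(G)`: the least number of vertices whose deletion leaves a complete `r`-partite graph. -/
noncomputable def gG {V : Type} (r : ℕ) (G : SimpleGraph V) : ℕ :=
  sInf {k | ∃ D : Finset V, LeavesComplete r G D ∧ D.card = k}

/-- `g_r(n, m)`: the maximum of `g_r(G)` over the `(r + 1)`-saturated graphs `G` on `n` vertices
with `e(G) ≥ t_r(n) - m`. -/
noncomputable def g (r n m : ℕ) : ℕ :=
  sSup {k | ∃ G : SimpleGraph (Fin n), IsSaturated r G ∧ t r n ≤ e G + m ∧ gG r G = k}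

/-- The order of magnitude: `1 + ∑_{j = 2}^{r} max (m - (j - 1) n / r, 0) ^ ((j - 1) / j)`. -/
noncomputable def Ψ (r n m : ℕ) : ℝ :=
  1 + ∑ j ∈ Icc 2 r, (max ((m : ℝ) - ((j : ℝ) - 1) * n / r) 0) ^ (((j : ℝ) - 1) / j)

/-- The order of magnitude for `(j - 1) n / r ≤ m ≤ j n / r`:
`n ^ ((j - 2) / (j - 1)) + (m - (j - 1) n / r) ^ ((j - 1) / j)`. -/
noncomputable def Φ (r n m j : ℕ) : ℝ :=
  (n : ℝ) ^ (((j : ℝ) - 2) / ((j : ℝ) - 1)) +
    ((m : ℝ) - ((j : ℝ) - 1) * n / r) ^ (((j : ℝ) - 1) / j)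

lemma term_nonneg (r n m j : ℕ) :
    0 ≤ (max ((m : ℝ) - ((j : ℝ) - 1) * n / r) 0) ^ (((j : ℝ) - 1) / j) :=
  Real.rpow_nonneg (le_max_right _ _) _

lemma one_le_Ψ (r n m : ℕ) : 1 ≤ Ψ r n m := by
  unfold Ψ
  have := sum_nonneg fun j (_ : j ∈ Icc 2 r) => term_nonneg r n m j
  linarith

lemma compare {r n m j : ℕ} (hj : 2 ≤ j) (hjr : j ≤ r) (hn : 1 ≤ n) (hmn : m ≤ n)
    (h1 : (j - 1) * n ≤ r * m) (h2 : r * m ≤ j * n) :
    Ψ r n m ≤ (r + 1) * Φ r n m j ∧ Φ r n m j ≤ (r + 1) * Ψ r n m := by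
  have hjR : (2:ℝ) ≤ j := by exact_mod_cast hj
  have hr0 : (0:ℝ) < r := by
    have : 0 < r := by omega
    exact_mod_cast this
  have hr1 : (1:ℝ) ≤ r := by exact_mod_cast (by omega : 1 ≤ r)
  have hnR : (1:ℝ) ≤ n := by exact_mod_cast hn
  have hmnR : (m:ℝ) ≤ n := by exact_mod_cast hmn
  have h1R : ((j:ℝ) - 1) * n ≤ r * m := by
    have : (((j - 1) * n : ℕ) : ℝ) ≤ ((r * m : ℕ) : ℝ) := by exact_mod_cast h1
    rw [Nat.cast_mul, Nat.cast_sub (by omega : 1 ≤ j), Nat.cast_mul, Nat.cast_one] at this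
    exact this
  have h2R : (r:ℝ) * m ≤ j * n := by exact_mod_cast h2
  have hY : 0 ≤ (m : ℝ) - ((j : ℝ) - 1) * n / r := by
    rw [sub_nonneg, div_le_iff₀ hr0]
    linarith
  have hα0 : 0 ≤ ((j : ℝ) - 2) / ((j : ℝ) - 1) := div_nonneg (by linarith) (by linarith)
  have hα1 : ((j : ℝ) - 2) / ((j : ℝ) - 1) ≤ 1 := by
    rw [div_le_one (by linarith)]; linarith
  have hY' : 0 ≤ ((m : ℝ) - ((j : ℝ) - 1) * n / r) ^ (((j : ℝ) - 1) / j) := Real.rpow_nonneg hY _
  have hn' : 1 ≤ (n : ℝ) ^ (((j : ℝ) - 2) / ((j : ℝ) - 1)) := Real.one_le_rpow hnR hα0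
  constructor
  · -- `Ψ ≤ (r + 1) Φ`
    have hterm : ∀ i ∈ Icc 2 r, (max ((m : ℝ) - ((i : ℝ) - 1) * n / r) 0) ^ (((i : ℝ) - 1) / i) ≤
        Φ r n m j := by
      intro i hi
      obtain ⟨hi2, -⟩ := mem_Icc.1 hi
      have hi2R : (2:ℝ) ≤ i := by exact_mod_cast hi2
      have hi0 : 0 < ((i:ℝ) - 1) / i := div_pos (by linarith) (by linarith)
      unfold Φ
      rcases lt_trichotomy i j with hij | hij | hij
      · have hijR : (i:ℝ) + 1 ≤ j := by exact_mod_cast hij
        have a1 : max ((m : ℝ) - ((i : ℝ) - 1) * n / r) 0 ≤ n := by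
          apply max_le _ (by linarith)
          have : 0 ≤ ((i : ℝ) - 1) * n / r :=
            div_nonneg (mul_nonneg (by linarith) (by linarith)) hr0.le
          linarith
        have a2 : ((i:ℝ) - 1) / i ≤ ((j : ℝ) - 2) / ((j : ℝ) - 1) := by
          rw [div_le_div_iff₀ (by linarith) (by linarith)]
          nlinarith
        have a3 : (max ((m : ℝ) - ((i : ℝ) - 1) * n / r) 0) ^ (((i : ℝ) - 1) / i) ≤
            (n : ℝ) ^ (((i : ℝ) - 1) / i) := Real.rpow_le_rpow (le_max_right _ _) a1 hi0.le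
        have a4 : (n : ℝ) ^ (((i : ℝ) - 1) / i) ≤ (n : ℝ) ^ (((j : ℝ) - 2) / ((j : ℝ) - 1)) :=
          Real.rpow_le_rpow_of_exponent_le hnR a2
        linarith
      · subst hij
        rw [max_eq_left hY]
        linarith
      · have hijR : (j:ℝ) + 1 ≤ i := by exact_mod_cast hij
        have a1 : (m : ℝ) - ((i : ℝ) - 1) * n / r ≤ 0 := by
          rw [sub_nonpos, le_div_iff₀ hr0]
          nlinarith
        rw [max_eq_right a1, Real.zero_rpow hi0.ne']
        linarith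
    have hsum := sum_le_sum hterm
    rw [sum_const, Nat.card_Icc, nsmul_eq_mul] at hsum
    have h3 : ((r + 1 - 2 : ℕ) : ℝ) ≤ r := by
      have : r + 1 - 2 ≤ r := by omega
      exact_mod_cast this
    have hΦ1 : 1 ≤ Φ r n m j := by unfold Φ; linarith
    have h4 : ((r + 1 - 2 : ℕ) : ℝ) * Φ r n m j ≤ r * Φ r n m j :=
      mul_le_mul_of_nonneg_right h3 (by linarith)
    unfold Ψ
    linarith
  · -- `Φ ≤ (r + 1) Ψ`
    have hmem : ∀ i ∈ Icc 2 r, 1 + (max ((m : ℝ) - ((i : ℝ) - 1) * n / r) 0) ^ (((i : ℝ) - 1) / i) ≤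
        Ψ r n m := by
      intro i hi
      unfold Ψ
      have := single_le_sum (f := fun i : ℕ => (max ((m : ℝ) - ((i : ℝ) - 1) * n / r) 0) ^
        (((i : ℝ) - 1) / i)) (fun i _ => term_nonneg r n m i) hi
      linarith
    have hj' := hmem j (mem_Icc.2 ⟨hj, hjr⟩)
    rw [max_eq_left hY] at hj'
    have hfirst : (n : ℝ) ^ (((j : ℝ) - 2) / ((j : ℝ) - 1)) ≤ r * Ψ r n m := by
      rcases Nat.lt_or_ge 2 j with hj3 | hj3
      · have hj3R : (3:ℝ) ≤ j := by exact_mod_cast hj3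
        have h5 := hmem (j - 1) (mem_Icc.2 ⟨by omega, by omega⟩)
        rw [Nat.cast_sub (by omega : 1 ≤ j), Nat.cast_one] at h5
        have e1 : (j:ℝ) - 1 - 1 = j - 2 := by ring
        rw [e1] at h5
        have h6 : (n:ℝ) / r ≤ max ((m : ℝ) - ((j : ℝ) - 2) * n / r) 0 := by
          refine le_trans ?_ (le_max_left _ _)
          rw [le_sub_iff_add_le, ← add_div, div_le_iff₀ hr0]
          linarith
        have h7 : ((n:ℝ) / r) ^ (((j : ℝ) - 2) / ((j : ℝ) - 1)) ≤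
            (max ((m : ℝ) - ((j : ℝ) - 2) * n / r) 0) ^ (((j : ℝ) - 2) / ((j : ℝ) - 1)) :=
          Real.rpow_le_rpow (by positivity) h6 hα0
        have h8 : (n : ℝ) ^ (((j : ℝ) - 2) / ((j : ℝ) - 1)) ≤
            r * ((n:ℝ) / r) ^ (((j : ℝ) - 2) / ((j : ℝ) - 1)) := by
          have e2 : (n:ℝ) = r * (n / r) := by field_simp
          have e3 : (n : ℝ) ^ (((j : ℝ) - 2) / ((j : ℝ) - 1)) =
              (r:ℝ) ^ (((j : ℝ) - 2) / ((j : ℝ) - 1)) *
                ((n:ℝ) / r) ^ (((j : ℝ) - 2) / ((j : ℝ) - 1)) := by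
            conv_lhs => rw [e2]
            rw [Real.mul_rpow hr0.le (by positivity)]
          rw [e3]
          apply mul_le_mul_of_nonneg_right _ (Real.rpow_nonneg (by positivity) _)
          calc (r:ℝ) ^ (((j : ℝ) - 2) / ((j : ℝ) - 1)) ≤ (r:ℝ) ^ (1:ℝ) :=
                Real.rpow_le_rpow_of_exponent_le hr1 hα1
            _ = r := Real.rpow_one _
        refine h8.trans (mul_le_mul_of_nonneg_left ?_ hr0.le)
        linarith
      · have : j = 2 := by omega
        subst this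
        have e1 : (((2:ℕ) : ℝ) - 2) / (((2:ℕ) : ℝ) - 1) = 0 := by norm_num
        rw [e1, Real.rpow_zero]
        have := one_le_Ψ r n m
        nlinarith
    unfold Φ
    linarith

lemma leaves_univ {n : ℕ} {r : ℕ} (hr : 2 ≤ r) (G : SimpleGraph (Fin n)) :
    LeavesComplete r G univ :=
  ⟨fun _ => ⟨0, by omega⟩, fun x hx => absurd (mem_univ x) hx⟩

lemma gG_le {n : ℕ} {r : ℕ} {G : SimpleGraph (Fin n)} {D : Finset (Fin n)}
    (h : LeavesComplete r G D) : gG r G ≤ D.card := Nat.sInf_le ⟨D, h, rfl⟩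

lemma le_gG {n : ℕ} {r : ℕ} (hr : 2 ≤ r) {G : SimpleGraph (Fin n)} {k : ℕ}
    (h : ∀ D : Finset (Fin n), LeavesComplete r G D → k ≤ D.card) : k ≤ gG r G := by
  unfold gG
  apply le_csInf
  · exact ⟨_, univ, leaves_univ hr G, rfl⟩
  · rintro k' ⟨D, hD, rfl⟩
    exact h D hD

lemma le_g {n m r : ℕ} (hr : 2 ≤ r) {G : SimpleGraph (Fin n)} (h : IsSaturated r G)
    (he : t r n ≤ e G + m) : gG r G ≤ g r n m := by
  unfold g
  apply le_csSup
  · refine ⟨n, ?_⟩
    rintro k ⟨G, -, -, rfl⟩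
    refine (gG_le (leaves_univ hr G)).trans ?_
    rw [card_univ, Fintype.card_fin]
  · exact ⟨G, h, he, rfl⟩

theorem main (r : ℕ) (hr : 2 ≤ r) :
    ∃ a A : ℝ, 0 < a ∧ 0 < A ∧ ∃ n₀ : ℕ, ∀ n m : ℕ, n₀ ≤ n → n ≤ r * m → m ≤ n →
      a * Ψ r n m ≤ g r n m ∧ (g r n m : ℝ) ≤ A * Ψ r n m := by
  obtain ⟨A, hA, n1, hup⟩ := Pool.Agent.K7.H61.TS.upper hr
  have hr2 : (2:ℝ) ≤ r := by exact_mod_cast hr
  have hr0 : (0:ℝ) < r := by linarith
  set B : ℝ := 4 * r * 2 ^ r with hB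
  have hB0 : 0 < B := by positivity
  have hB1 : 4 * (r:ℝ) ≤ B := by
    rw [hB]
    have : (1:ℝ) ≤ 2 ^ r := one_le_pow₀ (by norm_num)
    nlinarith
  refine ⟨1 / (1 + r * B), A, by positivity, hA, n1 + (4 * r * (4 * r) ^ r + 4 * r), ?_⟩
  intro n m hn hnm hmn
  have hn1 : n1 ≤ n := by omega
  have hn2 : 4 * r * (4 * r) ^ r + 4 * r ≤ n := by omega
  have hmnR : (m:ℝ) ≤ n := by exact_mod_cast hmn
  constructor
  · -- the lower bound
    have hg1 : 1 ≤ g r n m := by
      obtain ⟨G, h1, h2, h3, h4⟩ := Pool.Agent.K7.H61.TS.lower_core (n := n) (r := r) (s := 2)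
        (k := 1) (m := m) (le_refl 2) hr (le_refl 1) (by
          have h4r : 4 * r ≤ n := le_trans (Nat.le_add_left _ _) hn2
          simp only [one_pow]
          omega) (by
          have h5 : (n - 2) / r + 1 ≤ m := by
            rw [Nat.succ_le_iff, Nat.div_lt_iff_lt_mul (by omega), mul_comm]
            have h4r : 4 * r ≤ n := le_trans (Nat.le_add_left _ _) hn2
            omega
          simp only [one_pow, Nat.sub_self, mul_zero, mul_one, add_zero]
          omega)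
      refine le_trans (le_gG hr (k := 1) fun D hD => ?_) (le_g hr ⟨h1, h2⟩ h3)
      have := h4 D hD
      simpa using this
    have hg1R : (1:ℝ) ≤ g r n m := by exact_mod_cast hg1
    have hterm : ∀ j ∈ Icc 2 r, (max ((m : ℝ) - ((j : ℝ) - 1) * n / r) 0) ^ (((j : ℝ) - 1) / j) ≤
        B * g r n m := by
      intro j hj
      obtain ⟨hj2, hjr⟩ := mem_Icc.1 hj
      have hj2R : (2:ℝ) ≤ j := by exact_mod_cast hj2
      have hjrR : (j:ℝ) ≤ r := by exact_mod_cast hjr
      by_cases hY : 4 * (j:ℝ) ≤ (m : ℝ) - ((j : ℝ) - 1) * n / r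
      · obtain ⟨k, hk1, hk2, hk3, hk4⟩ := Pool.Agent.K7.H61.TS.choose_k hj2 hjr hn2 hmn hY
        obtain ⟨G, h1, h2, h3, h4⟩ := Pool.Agent.K7.H61.TS.lower_core hj2 hjr hk1 hk2 hk3
        have h5 : k ^ (j - 1) ≤ g r n m :=
          le_trans (le_gG hr fun D hD => h4 D hD) (le_g hr ⟨h1, h2⟩ h3)
        have h6 : ((k ^ (j - 1) : ℕ) : ℝ) ≤ g r n m := by exact_mod_cast h5
        rw [max_eq_left (by linarith)]
        exact hk4.trans (mul_le_mul_of_nonneg_left h6 hB0.le)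
      · push Not at hY
        have h1 : max ((m : ℝ) - ((j : ℝ) - 1) * n / r) 0 ≤ 4 * j := max_le hY.le (by linarith)
        have hα0 : 0 ≤ ((j:ℝ) - 1) / j := div_nonneg (by linarith) (by linarith)
        have hα1 : ((j:ℝ) - 1) / j ≤ 1 := by rw [div_le_one (by linarith)]; linarith
        calc (max ((m : ℝ) - ((j : ℝ) - 1) * n / r) 0) ^ (((j : ℝ) - 1) / j) ≤
              (4 * (j:ℝ)) ^ (((j : ℝ) - 1) / j) := Real.rpow_le_rpow (le_max_right _ _) h1 hα0
          _ ≤ (4 * (j:ℝ)) ^ (1:ℝ) := Real.rpow_le_rpow_of_exponent_le (by linarith) hα1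
          _ = 4 * j := Real.rpow_one _
          _ ≤ B * 1 := by linarith
          _ ≤ B * g r n m := mul_le_mul_of_nonneg_left hg1R hB0.le
    have hsum : Ψ r n m ≤ (1 + r * B) * g r n m := by
      unfold Ψ
      have h1 := sum_le_sum hterm
      rw [sum_const, Nat.card_Icc, nsmul_eq_mul] at h1
      have h2 : ((r + 1 - 2 : ℕ) : ℝ) ≤ r := by
        have : r + 1 - 2 ≤ r := by omega
        exact_mod_cast this
      have h3 : ((r + 1 - 2 : ℕ) : ℝ) * (B * g r n m) ≤ r * (B * g r n m) :=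
        mul_le_mul_of_nonneg_right h2 (by positivity)
      linarith
    rw [one_div, inv_mul_le_iff₀ (by positivity)]
    exact hsum
  · -- the upper bound
    have hall : ∀ k ∈ {k | ∃ G : SimpleGraph (Fin n), IsSaturated r G ∧ t r n ≤ e G + m ∧
        gG r G = k}, (k : ℝ) ≤ A * Ψ r n m := by
      rintro k ⟨G, hG, he, rfl⟩
      have h1 : (1 - 1 / (r:ℝ)) * ((Fintype.card (Fin n) : ℕ) : ℝ) ^ 2 - r - 2 * (m:ℝ) ≤
          Pool.Agent.K7.H61.TS.F2 G.Adj univ := by
        rw [Pool.Agent.K7.H61.TS.F2_ncard, Fintype.card_fin]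
        have h2 := Pool.Agent.K7.H61.TS.turan_ge (n := n) hr
        have h3 : ((SimpleGraph.turanGraph n r).edgeSet.ncard : ℝ) ≤ G.edgeSet.ncard + m := by
          exact_mod_cast he
        push_cast
        linarith
      obtain ⟨D, hD1, hD2⟩ := hup (Fin n) G m (by rw [Fintype.card_fin]; exact hn1) hG.1 hG.2
        (by rw [Fintype.card_fin]; exact hmnR) h1
      have h4 : (gG r G : ℝ) ≤ D.card := by exact_mod_cast gG_le hD1
      refine h4.trans ?_
      rw [Fintype.card_fin] at hD2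
      exact hD2
    have hΨ : 0 ≤ Ψ r n m := by
      unfold Ψ
      have : 0 ≤ ∑ j ∈ Icc 2 r, (max ((m : ℝ) - ((j : ℝ) - 1) * n / r) 0) ^ (((j : ℝ) - 1) / j) :=
        sum_nonneg fun j _ => Real.rpow_nonneg (le_max_right _ _) _
      linarith
    rcases Set.eq_empty_or_nonempty {k | ∃ G : SimpleGraph (Fin n), IsSaturated r G ∧
        t r n ≤ e G + m ∧ gG r G = k} with h0 | hne
    · unfold g
      rw [h0]
      simp only [csSup_empty, bot_eq_zero', Nat.cast_zero]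
      positivity
    · apply hall
      unfold g
      apply Nat.sSup_mem hne
      refine ⟨n, ?_⟩
      rintro k ⟨G, -, -, rfl⟩
      refine (gG_le (leaves_univ hr G)).trans ?_
      rw [card_univ, Fintype.card_fin]

/-- **Turán stability for saturated graphs with a linear edge deficit.** For every `r ≥ 2` there are
constants `a, A > 0` and `n₀`, depending only on `r`, such that for all `n ≥ n₀` and all integers `m`
with `n / r ≤ m ≤ n` the number `g_r(n, m)` lies between `a Ψ_r(n, m)` and `A Ψ_r(n, m)`, and, if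
moreover `(j - 1) n / r ≤ m ≤ j n / r` with `2 ≤ j ≤ r`, between `a Φ_r(n, m, j)` and
`A Φ_r(n, m, j)`. -/
theorem result (r : ℕ) (hr : 2 ≤ r) :
    ∃ a A : ℝ, 0 < a ∧ 0 < A ∧ ∃ n₀ : ℕ, ∀ n m : ℕ, n₀ ≤ n → n ≤ r * m → m ≤ n →
      (a * Ψ r n m ≤ g r n m ∧ (g r n m : ℝ) ≤ A * Ψ r n m) ∧
      ∀ j : ℕ, 2 ≤ j → j ≤ r → (j - 1) * n ≤ r * m → r * m ≤ j * n →
        a * Φ r n m j ≤ g r n m ∧ (g r n m : ℝ) ≤ A * Φ r n m j := by
  obtain ⟨a, A, ha, hA, n₀, h⟩ := main r hr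
  have hr1 : (0:ℝ) < (r:ℝ) + 1 := by positivity
  refine ⟨a / (r + 1), A * (r + 1), by positivity, by positivity, n₀ + 1, ?_⟩
  intro n m hn hnm hmn
  obtain ⟨h1, h2⟩ := h n m (by omega) hnm hmn
  have hΨ := one_le_Ψ r n m
  have e : ∀ x : ℝ, a / (r + 1) * ((r + 1) * x) = a * x := fun x => by field_simp
  have e' : ∀ x : ℝ, A * (r + 1) * x = A * ((r + 1) * x) := fun x => by ring
  have hr0 : (0:ℝ) ≤ r := by positivity
  have hcmp : Ψ r n m ≤ (r + 1) * Ψ r n m := by nlinarith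
  refine ⟨⟨?_, ?_⟩, ?_⟩
  · refine le_trans ?_ h1
    rw [← e]
    exact mul_le_mul_of_nonneg_left hcmp (by positivity)
  · refine h2.trans ?_
    rw [e']
    exact mul_le_mul_of_nonneg_left hcmp hA.le
  · intro j hj hjr h3 h4
    obtain ⟨g1, g2⟩ := compare hj hjr (by omega) hmn h3 h4
    constructor
    · refine le_trans ?_ h1
      rw [← e]
      exact mul_le_mul_of_nonneg_left g2 (by positivity)
    · refine h2.trans ?_
      rw [e']
      exact mul_le_mul_of_nonneg_left g1 hA.le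

end Pool.Agent.Results.MP_506aae_co.LinearDeficit
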